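import Pool.Agent.Q170.SC.Iso

/-!
# Countability of the set of isotopy classes and of `π₀`
-/

set_option autoImplicit false

open scoped ContDiff
open Set Topology Function

namespace Q170.SC

variable {n : ℕ}

/-! ### Isotopies and the topology -/

theorem contDiff_iteratedFDeriv_family (f : ℝ → E n → E n)
    (hf : ContDiff ℝ ∞ (fun p : ℝ × E n => f p.1 p.2)) (k : ℕ) :
    ContDiff ℝ ∞ (fun p : ℝ × E n => iteratedFDeriv ℝ k (f p.1) p.2) := by
  induction k with
  | zero =>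
    have h : (fun p : ℝ × E n => iteratedFDeriv ℝ 0 (f p.1) p.2) =
        fun p => (continuousMultilinearCurryFin0 ℝ (E n) (E n)).symm (f p.1 p.2) := rfl
    rw [h]
    exact (LinearIsometryEquiv.contDiff _).comp hf
  | succ k ih =>
    have h1 : ContDiff ℝ ∞ (fun p : ℝ × E n =>
        fderiv ℝ (fun z => iteratedFDeriv ℝ k (f p.1) z) p.2) := by
      have h2 : ContDiff ℝ ∞ (Function.uncurry
          (fun (p : ℝ × E n) (z : E n) => iteratedFDeriv ℝ k (f p.1) z)) :=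
        ih.comp ((contDiff_fst.comp contDiff_fst).prodMk contDiff_snd)
      exact h2.fderiv contDiff_snd (by simp)
    have h : (fun p : ℝ × E n => iteratedFDeriv ℝ (k + 1) (f p.1) p.2) =
        fun p => (continuousMultilinearCurryLeftEquiv ℝ (fun _ : Fin (k + 1) => E n) (E n)).symm
          (fderiv ℝ (fun z => iteratedFDeriv ℝ k (f p.1) z) p.2) := by
      funext p
      rw [iteratedFDeriv_succ_eq_comp_left]
      rfl
    rw [h]
    exact (LinearIsometryEquiv.contDiff _).comp h1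

theorem continuous_of_isotopy (K : Set (E n)) (Φ : ℝ → SympK n K)
    (hΦ : ContDiff ℝ ∞ (fun p : ℝ × E n => (Φ p.1).incl.map p.2)) : Continuous Φ := by
  rw [continuous_induced_rng]
  refine continuous_pi fun k => ?_
  have h1 : Continuous (fun p : ℝ × E n => iteratedFDeriv ℝ k (Φ p.1).incl.map p.2) :=
    (contDiff_iteratedFDeriv_family (fun t => (Φ t).incl.map) hΦ k).continuous
  exact (ContinuousMap.curry ⟨_, h1⟩).continuous

theorem continuous_incl (K : Set (E n)) (hK : IsCompact K) :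
    Continuous (fun φ : SympK n K => φ.incl) := by
  rw [continuous_iff_coinduced_le]
  exact le_iSup (fun K : {K : Set (E n) // IsCompact K} =>
    TopologicalSpace.coinduced (fun φ : SympK n K.1 => φ.incl) inferInstance) ⟨K, hK⟩

theorem SmoothIsotopic.joined {φ ψ : SympCt n} (h : SmoothIsotopic φ ψ) : Joined φ ψ := by
  obtain ⟨K, hK, Φ, hΦ, hs, h0, h1⟩ := h
  let Φ' : ℝ → SympK n K := fun t => ⟨Φ t, hs t⟩
  have hc : Continuous Φ := (continuous_incl K hK).comp (continuous_of_isotopy K Φ' hΦ)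
  exact ⟨⟨⟨fun t : unitInterval => Φ t, hc.comp continuous_subtype_val⟩, by simpa using h0,
    by simpa using h1⟩⟩

/-! ### Separability -/

theorem fderiv_eq_id_of_suppIn {K : Set (E n)} (hK : IsCompact K) {φ : Equiv.Perm (E n)}
    (hs : SuppIn K φ) {z : E n} (hz : z ∉ K) : fderiv ℝ φ z = ContinuousLinearMap.id ℝ (E n) := by
  have h : φ =ᶠ[𝓝 z] id := by
    filter_upwards [hK.isClosed.isOpen_compl.mem_nhds hz] with w hw
    exact hs w hw
  rw [h.fderiv_eq]
  exact fderiv_id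

theorem IsSymp.continuous_fderiv {φ : Equiv.Perm (E n)} (hφ : IsSymp φ) :
    Continuous (fderiv ℝ φ) := hφ.smooth.continuous_fderiv (by simp)

/-- an element of `G_K` has bounded derivative -/
theorem exists_bound {K : Set (E n)} (hK : IsCompact K) {φ : Equiv.Perm (E n)} (hφ : IsSymp φ)
    (hs : SuppIn K φ) : ∃ C : ℝ, 0 ≤ C ∧ ∀ z, ‖fderiv ℝ φ z‖ ≤ C := by
  obtain ⟨C, hC⟩ := hK.exists_bound_of_continuousOn hφ.continuous_fderiv.continuousOn
  refine ⟨max C 1, by positivity, fun z => ?_⟩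
  by_cases hz : z ∈ K
  · exact (hC z hz).trans (le_max_left _ _)
  · rw [fderiv_eq_id_of_suppIn hK hs hz]
    exact ContinuousLinearMap.norm_id_le.trans (le_max_right _ _)

/-- In `G_K` there is a countable subset meeting every smooth isotopy class. -/
theorem exists_countable_K (K : Set (E n)) (hK : IsCompact K) :
    ∃ S : Set (SympCt n), S.Countable ∧
      ∀ ψ : SympCt n, SuppIn K ψ.perm → ∃ s ∈ S, SmoothIsotopic s ψ := by
  let D : SympK n K → C(E n, E n →L[ℝ] E n) := fun φ =>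
    ⟨fderiv ℝ φ.incl.perm, φ.1.2.1.continuous_fderiv⟩
  let T : TopologicalSpace (SympK n K) := TopologicalSpace.induced D inferInstance
  have hT : @SecondCountableTopology (SympK n K) T :=
    TopologicalSpace.secondCountableTopology_induced _ _ D
  obtain ⟨S, hS, hSd⟩ := @TopologicalSpace.exists_countable_dense (SympK n K) T _
  refine ⟨(fun φ : SympK n K => φ.incl) '' S, hS.image _, fun ψ hψ => ?_⟩
  obtain ⟨C, hC0, hC⟩ := exists_bound hK ψ.2.1.inv hψ.inv
  let δ : ℝ := 1 / (4 * (C + 1))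
  have hδ : 0 < δ := by positivity
  have hδC : δ * C ≤ 1 / 4 := by
    show 1 / (4 * (C + 1)) * C ≤ 1 / 4
    rw [div_mul_eq_mul_div, div_le_div_iff₀ (by positivity) (by norm_num)]
    linarith
  let ψ' : SympK n K := ⟨ψ, hψ⟩
  let U : Set C(E n, E n →L[ℝ] E n) :=
    (fun F => F - D ψ') ⁻¹' {G | MapsTo G K (Metric.ball 0 δ)}
  have hU : IsOpen U :=
    (ContinuousMap.isOpen_setOfPred_mapsTo hK Metric.isOpen_ball).preimage
      (continuous_id.sub continuous_const)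
  have hne : ψ' ∈ D ⁻¹' U := by
    intro z _
    show D ψ' z - D ψ' z ∈ Metric.ball 0 δ
    rw [sub_self]
    exact Metric.mem_ball_self hδ
  have hUo : @IsOpen (SympK n K) T (D ⁻¹' U) := ⟨U, hU, rfl⟩
  obtain ⟨s, hsU, hsS⟩ := @Dense.inter_open_nonempty _ T S hSd (D ⁻¹' U) hUo ⟨ψ', hne⟩
  refine ⟨s.incl, ⟨s, hsS, rfl⟩, ?_⟩
  -- `s` is `C¹`-close to `ψ`
  have hclose : ∀ z, ‖fderiv ℝ s.incl.perm z - fderiv ℝ ψ.perm z‖ ≤ δ := by
    intro z
    by_cases hz : z ∈ K
    · have h1 : D s z - D ψ' z ∈ Metric.ball 0 δ := hsU hz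
      rw [mem_ball_zero_iff] at h1
      exact h1.le
    · have h1 : fderiv ℝ s.incl.perm z = ContinuousLinearMap.id ℝ (E n) :=
        fderiv_eq_id_of_suppIn hK s.2 hz
      rw [h1, fderiv_eq_id_of_suppIn hK hψ hz, sub_self, norm_zero]
      exact hδ.le
  let χ : Equiv.Perm (E n) := s.incl.perm * ψ.perm⁻¹
  have hχ : IsSymp χ := s.1.2.1.mul ψ.2.1.inv
  have hχK : SuppIn K χ := by
    have := SuppIn.mul s.2 hψ.inv
    rwa [union_self] at this
  have hχd : ∀ z u, ‖fderiv ℝ χ z u - u‖ ≤ 1 / 4 * ‖u‖ := by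
    intro z u
    have d1 : DifferentiableAt ℝ s.incl.perm (ψ.perm⁻¹ z) := s.1.2.1.smooth.differentiable (by simp) _
    have d2 : DifferentiableAt ℝ (⇑ψ.perm⁻¹) z := ψ.2.1.smooth_symm.differentiable (by simp) _
    have d3 : DifferentiableAt ℝ ψ.perm (ψ.perm⁻¹ z) := ψ.2.1.smooth.differentiable (by simp) _
    have h1 : fderiv ℝ χ z = (fderiv ℝ s.incl.perm (ψ.perm⁻¹ z)).comp
        (fderiv ℝ (⇑ψ.perm⁻¹) z) := fderiv_comp z d1 d2
    have h3 : (ψ.perm : E n → E n) ∘ (⇑ψ.perm⁻¹) = id := by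
      funext x
      exact ψ.perm.apply_symm_apply x
    have h2 : (fderiv ℝ ψ.perm (ψ.perm⁻¹ z)).comp (fderiv ℝ (⇑ψ.perm⁻¹) z) =
        ContinuousLinearMap.id ℝ (E n) := by
      rw [← fderiv_comp z d3 d2, h3]
      exact fderiv_id
    have h4 : fderiv ℝ χ z u - u =
        (fderiv ℝ s.incl.perm (ψ.perm⁻¹ z) - fderiv ℝ ψ.perm (ψ.perm⁻¹ z))
          (fderiv ℝ (⇑ψ.perm⁻¹) z u) := by
      rw [h1, sub_apply]
      have h5 := DFunLike.congr_fun h2 u
      have h6 : fderiv ℝ ψ.perm (ψ.perm⁻¹ z) (fderiv ℝ (⇑ψ.perm⁻¹) z u) = u := h5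
      rw [h6]
      rfl
    rw [h4]
    calc ‖(fderiv ℝ s.incl.perm (ψ.perm⁻¹ z) - fderiv ℝ ψ.perm (ψ.perm⁻¹ z))
          (fderiv ℝ (⇑ψ.perm⁻¹) z u)‖
        ≤ ‖fderiv ℝ s.incl.perm (ψ.perm⁻¹ z) - fderiv ℝ ψ.perm (ψ.perm⁻¹ z)‖ *
          ‖fderiv ℝ (⇑ψ.perm⁻¹) z u‖ := ContinuousLinearMap.le_opNorm _ _
      _ ≤ δ * (C * ‖u‖) := by
          gcongr
          · exact hclose _
          · exact (ContinuousLinearMap.le_opNorm _ _).trans (by gcongr; exact hC z)
      _ = (δ * C) * ‖u‖ := by ring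
      _ ≤ 1 / 4 * ‖u‖ := by gcongr
  obtain ⟨Φ, hΦ, hΦs, hΦK, hΦ0, hΦ1⟩ := exists_isotopy K χ hχ hχK hχd
  have hK2 : ∀ t, SuppIn K (Φ t * ψ.perm) := by
    intro t
    have := SuppIn.mul (hΦK t) hψ
    rwa [union_self] at this
  refine ⟨K, hK, fun t => ⟨Φ (1 - t) * ψ.perm, (hΦs (1 - t)).mul ψ.2.1, K, hK, hK2 (1 - t)⟩,
    ?_, fun t => hK2 (1 - t), ?_, ?_⟩
  · have h1 : ContDiff ℝ ∞ (fun p : ℝ × E n => (1 - p.1, ψ.perm p.2)) :=
      (contDiff_const.sub contDiff_fst).prodMk (ψ.2.1.smooth.comp contDiff_snd)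
    exact hΦ.comp h1
  · apply Subtype.ext
    show Φ (1 - 0) * ψ.perm = s.incl.perm
    rw [sub_zero, hΦ1]
    exact inv_mul_cancel_right _ _
  · apply Subtype.ext
    show Φ (1 - 1) * ψ.perm = ψ.perm
    rw [sub_self, hΦ0, one_mul]

/-- A countable subset of `G` meets every smooth isotopy class. -/
theorem exists_countable : ∃ S : Set (SympCt n), S.Countable ∧
    ∀ ψ : SympCt n, ∃ s ∈ S, SmoothIsotopic s ψ := by
  choose S hS hS2 using fun m : ℕ =>
    exists_countable_K (Metric.closedBall (0 : E n) m) (isCompact_closedBall _ _)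
  refine ⟨⋃ m, S m, countable_iUnion hS, fun ψ => ?_⟩
  obtain ⟨K, hK, hψ⟩ := ψ.2.2
  obtain ⟨r, hr⟩ := hK.isBounded.subset_closedBall 0
  obtain ⟨m, hm⟩ := exists_nat_ge r
  have h1 : SuppIn (Metric.closedBall (0 : E n) m) ψ.perm := by
    intro z hz
    exact hψ z fun h => hz (Metric.closedBall_subset_closedBall hm (hr h))
  obtain ⟨s, hs, hs2⟩ := hS2 m ψ h1
  exact ⟨s, mem_iUnion.2 ⟨m, hs⟩, hs2⟩

theorem countable_zerothHomotopy : Countable (ZerothHomotopy (SympCt n)) := by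
  obtain ⟨S, hS, h⟩ := exists_countable (n := n)
  have : Countable S := hS
  have hsurj : Surjective (fun s : S => (Quotient.mk (pathSetoid (SympCt n)) s.1)) := by
    intro q
    obtain ⟨ψ, rfl⟩ := Quotient.exists_rep q
    obtain ⟨s, hs, h1⟩ := h ψ
    exact ⟨⟨s, hs⟩, Quotient.sound h1.joined⟩
  exact hsurj.countable

end Q170.SC
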