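import Mathlib

/-!
# The group of compactly supported symplectomorphisms of `ℝ^{2n}` with its usual topology
-/

set_option autoImplicit false

open scoped ContDiff
open Set Topology

namespace Q170.SC

/-- `ℝ^{2n}` with coordinates `(x, y)`, where `x, y ∈ ℝⁿ`. -/
abbrev E (n : ℕ) : Type := (Fin n → ℝ) × (Fin n → ℝ)

/-- The standard symplectic form `∑ dxᵢ ∧ dyᵢ` of `ℝ^{2n}`. -/
def omega {n : ℕ} (u v : E n) : ℝ := ∑ i, (u.1 i * v.2 i - u.2 i * v.1 i)

/-- `φ` is a diffeomorphism of `ℝ^{2n}` which preserves the standard symplectic form. -/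
structure IsSymp {n : ℕ} (φ : Equiv.Perm (E n)) : Prop where
  smooth : ContDiff ℝ ∞ φ
  smooth_symm : ContDiff ℝ ∞ φ.symm
  form : ∀ z u v : E n, omega (fderiv ℝ φ z u) (fderiv ℝ φ z v) = omega u v

/-- `φ` is the identity off `K`. -/
def SuppIn {n : ℕ} (K : Set (E n)) (φ : Equiv.Perm (E n)) : Prop := ∀ z, z ∉ K → φ z = z

theorem IsSymp.one {n : ℕ} : IsSymp (1 : Equiv.Perm (E n)) where
  smooth := contDiff_id
  smooth_symm := contDiff_id
  form z u v := by
    have h : fderiv ℝ (⇑(1 : Equiv.Perm (E n))) z = ContinuousLinearMap.id ℝ (E n) := fderiv_id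
    rw [h]
    rfl

theorem IsSymp.mul {n : ℕ} {φ ψ : Equiv.Perm (E n)} (hφ : IsSymp φ) (hψ : IsSymp ψ) :
    IsSymp (φ * ψ) where
  smooth := hφ.smooth.comp hψ.smooth
  smooth_symm := hψ.smooth_symm.comp hφ.smooth_symm
  form z u v := by
    have h1 : DifferentiableAt ℝ φ (ψ z) := hφ.smooth.differentiable (by simp) _
    have h2 : DifferentiableAt ℝ ψ z := hψ.smooth.differentiable (by simp) _
    have h : fderiv ℝ (⇑(φ * ψ)) z = (fderiv ℝ φ (ψ z)).comp (fderiv ℝ ψ z) :=
      fderiv_comp z h1 h2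
    rw [h]
    exact (hφ.form (ψ z) _ _).trans (hψ.form z u v)

theorem IsSymp.inv {n : ℕ} {φ : Equiv.Perm (E n)} (hφ : IsSymp φ) : IsSymp φ⁻¹ where
  smooth := hφ.smooth_symm
  smooth_symm := hφ.smooth
  form z u v := by
    have h1 : DifferentiableAt ℝ φ (φ⁻¹ z) := hφ.smooth.differentiable (by simp) _
    have h2 : DifferentiableAt ℝ (⇑φ⁻¹) z := hφ.smooth_symm.differentiable (by simp) _
    have h3 : (φ : E n → E n) ∘ (⇑φ⁻¹) = id := by
      funext x
      exact φ.apply_symm_apply x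
    have h : (fderiv ℝ φ (φ⁻¹ z)).comp (fderiv ℝ (⇑φ⁻¹) z) = ContinuousLinearMap.id ℝ (E n) := by
      rw [← fderiv_comp z h1 h2, h3]
      exact fderiv_id
    have h4 := hφ.form (φ⁻¹ z) (fderiv ℝ (⇑φ⁻¹) z u) (fderiv ℝ (⇑φ⁻¹) z v)
    have h5 : ∀ w, fderiv ℝ φ (φ⁻¹ z) (fderiv ℝ (⇑φ⁻¹) z w) = w := fun w =>
      DFunLike.congr_fun h w
    rw [h5, h5] at h4
    exact h4.symm

theorem SuppIn.mul {n : ℕ} {K L : Set (E n)} {φ ψ : Equiv.Perm (E n)} (hφ : SuppIn K φ)
    (hψ : SuppIn L ψ) : SuppIn (K ∪ L) (φ * ψ) := by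
  intro z hz
  have h1 : z ∉ K := fun h => hz (Or.inl h)
  have h2 : z ∉ L := fun h => hz (Or.inr h)
  rw [Equiv.Perm.mul_apply, hψ z h2, hφ z h1]

theorem SuppIn.inv {n : ℕ} {K : Set (E n)} {φ : Equiv.Perm (E n)} (hφ : SuppIn K φ) :
    SuppIn K φ⁻¹ := by
  intro z hz
  have h := hφ z hz
  have h1 : φ⁻¹ (φ z) = z := φ.symm_apply_apply z
  rw [h] at h1
  exact h1

/-- The group of compactly supported symplectomorphisms of `ℝ^{2n}`, as a subgroup of the group of
all bijections. -/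
def sympCt (n : ℕ) : Subgroup (Equiv.Perm (E n)) where
  carrier := {φ | IsSymp φ ∧ ∃ K : Set (E n), IsCompact K ∧ SuppIn K φ}
  one_mem' := ⟨IsSymp.one, ∅, isCompact_empty, fun _ _ => rfl⟩
  mul_mem' := by
    rintro φ ψ ⟨h1, K, hK, h2⟩ ⟨h3, L, hL, h4⟩
    exact ⟨h1.mul h3, K ∪ L, hK.union hL, h2.mul h4⟩
  inv_mem' := by
    rintro φ ⟨h1, K, hK, h2⟩
    exact ⟨h1.inv, K, hK, h2.inv⟩

/-- The group `G = Symp_ct(ℝ^{2n}, ω_st)`. -/
def SympCt (n : ℕ) : Type := ↥(sympCt n)

noncomputable instance (n : ℕ) : Group (SympCt n) := inferInstanceAs (Group ↥(sympCt n))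

/-- the underlying bijection of `ℝ^{2n}` -/
def SympCt.perm {n : ℕ} (φ : SympCt n) : Equiv.Perm (E n) := φ.1

/-- the underlying map of `ℝ^{2n}` -/
def SympCt.map {n : ℕ} (φ : SympCt n) (z : E n) : E n := φ.perm z

/-- The subset `G_K` of the elements of `G` supported in `K`. -/
def SympK (n : ℕ) (K : Set (E n)) : Type := {φ : SympCt n // SuppIn K φ.perm}

/-- the inclusion of `G_K` in `G` -/
def SympK.incl {n : ℕ} {K : Set (E n)} (φ : SympK n K) : SympCt n := φ.1

/-- The `k`-th derivative of the element `φ` of `G`, as a continuous map on `ℝ^{2n}`. -/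
noncomputable def SympCt.jet {n : ℕ} (φ : SympCt n) (k : ℕ) :
    C(E n, ContinuousMultilinearMap ℝ (fun _ : Fin k => E n) (E n)) where
  toFun z := iteratedFDeriv ℝ k φ.map z
  continuous_toFun := ContDiff.continuous_iteratedFDeriv (mod_cast le_top) φ.2.1.smooth

/-- The `C^∞` topology on `G_K`: uniform convergence on compact sets of all derivatives. -/
noncomputable instance (n : ℕ) (K : Set (E n)) : TopologicalSpace (SympK n K) :=
  TopologicalSpace.induced (fun φ (k : ℕ) => φ.incl.jet k) inferInstance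

/-- The topology of `G`: the direct limit of the `C^∞` topologies of the subgroups `G_K` over all
compact sets `K`, that is, the finest topology for which the inclusions `G_K → G` are
continuous. -/
noncomputable instance (n : ℕ) : TopologicalSpace (SympCt n) :=
  ⨆ K : {K : Set (E n) // IsCompact K},
    TopologicalSpace.coinduced (fun φ : SympK n K.1 => φ.incl) inferInstance

/-- `φ` and `ψ` are joined by a smooth isotopy of symplectomorphisms supported in one compact
set. -/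
def SmoothIsotopic {n : ℕ} (φ ψ : SympCt n) : Prop :=
  ∃ K : Set (E n), IsCompact K ∧ ∃ Φ : ℝ → SympCt n,
    ContDiff ℝ ∞ (fun p : ℝ × E n => (Φ p.1).map p.2) ∧ (∀ t, SuppIn K (Φ t).perm) ∧
    Φ 0 = φ ∧ Φ 1 = ψ

end Q170.SC
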