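import Mathlib

/-!
# Smooth inverses of perturbations of the identity
-/

set_option autoImplicit false

open scoped ContDiff
open Set Topology Function

namespace Q170.SC

variable {V : Type*} [NormedAddCommGroup V] [NormedSpace ℝ V] [FiniteDimensional ℝ V]

/-- A smooth bijection with injective derivatives has a smooth inverse. -/
theorem exists_smooth_inv (F : V → V) (hF : ContDiff ℝ ∞ F) (hb : Bijective F)
    (hi : ∀ z v, fderiv ℝ F z v = 0 → v = 0) :
    ∃ G : V → V, ContDiff ℝ ∞ G ∧ (∀ z, G (F z) = z) ∧ ∀ z, F (G z) = z := by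
  have : CompleteSpace V := FiniteDimensional.complete ℝ V
  let F' : V → (V ≃L[ℝ] V) := fun z =>
    (LinearEquiv.ofInjectiveEndo (fderiv ℝ F z : V →ₗ[ℝ] V)
      ((injective_iff_map_eq_zero _).2 fun v hv => hi z v hv)).toContinuousLinearEquiv
  have hF' : ∀ z, (F' z : V →L[ℝ] V) = fderiv ℝ F z := by
    intro z
    ext v
    rfl
  have hs : ∀ z, HasStrictFDerivAt F (F' z : V →L[ℝ] V) z := by
    intro z
    rw [hF' z]
    exact (hF.contDiffAt).hasStrictFDerivAt (by simp)
  have ho : IsOpenMap F := isOpenMap_of_hasStrictFDerivAt_equiv hs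
  let e : V ≃ₜ V := (Equiv.ofBijective F hb).toHomeomorphOfContinuousOpen hF.continuous ho
  have he : ContDiff ℝ ∞ (e.symm : V → V) :=
    e.contDiff_symm (f₀' := F') (fun z => (hs z).hasFDerivAt) hF
  exact ⟨e.symm, he, fun z => e.symm_apply_apply z, fun z => e.apply_symm_apply z⟩

/-- A perturbation of the identity by a contraction is bijective. -/
theorem bijective_add_contraction (c : V → V) (k : NNReal) (hk : k < 1) (hc : LipschitzWith k c) :
    Bijective (fun w => w + c w) := by
  have : CompleteSpace V := FiniteDimensional.complete ℝ V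
  have h : ∀ y : V, ContractingWith k (fun w => y - c w) := by
    intro y
    refine ⟨hk, ?_⟩
    refine LipschitzWith.of_dist_le_mul fun a b => ?_
    rw [dist_sub_left]
    exact hc.dist_le_mul a b
  constructor
  · intro a b hab
    have ha : IsFixedPt (fun w => (a + c a) - c w) a := by
      show (a + c a) - c a = a
      abel
    have hb : IsFixedPt (fun w => (a + c a) - c w) b := by
      show (a + c a) - c b = b
      have hab' : a + c a = b + c b := hab
      rw [hab']
      abel
    exact (h (a + c a)).fixedPoint_unique' ha hb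
  · intro y
    refine ⟨(h y).fixedPoint, ?_⟩
    have h1 : y - c (h y).fixedPoint = (h y).fixedPoint := (h y).fixedPoint_isFixedPt
    show (h y).fixedPoint + c (h y).fixedPoint = y
    nth_rw 1 [← h1]
    abel

/-- The family of the inverses of `w ↦ w + τ(t) c(w)` is smooth. -/
theorem exists_smooth_family_inv (c : V → V) (hc : ContDiff ℝ ∞ c) (k : NNReal) (hk : k < 1)
    (hck : ∀ w, ‖fderiv ℝ c w‖ ≤ k) (τ : ℝ → ℝ) (hτ : ContDiff ℝ ∞ τ) (h0 : ∀ t, |τ t| ≤ 1) :
    ∃ R : ℝ → V → V, ContDiff ℝ ∞ (fun p : ℝ × V => R p.1 p.2) ∧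
      (∀ t w, R t (w + τ t • c w) = w) ∧ ∀ t w, R t w + τ t • c (R t w) = w := by
  have hcl : LipschitzWith k c :=
    lipschitzWith_of_nnnorm_fderiv_le (hc.differentiable (by simp)) (fun w => hck w)
  have hbt : ∀ t, Bijective (fun w => w + τ t • c w) := by
    intro t
    refine bijective_add_contraction (fun w => τ t • c w) k hk ?_
    refine LipschitzWith.of_dist_le_mul fun a b => ?_
    rw [dist_eq_norm, ← smul_sub, norm_smul]
    have h1 : ‖c a - c b‖ ≤ k * dist a b := by
      rw [← dist_eq_norm]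
      exact hcl.dist_le_mul a b
    have h2 : ‖τ t‖ ≤ 1 := by simpa using h0 t
    calc ‖τ t‖ * ‖c a - c b‖ ≤ 1 * ‖c a - c b‖ := by gcongr
      _ ≤ k * dist a b := by rw [one_mul]; exact h1
  let F : ℝ × V → ℝ × V := fun p => (p.1, p.2 + τ p.1 • c p.2)
  have hF : ContDiff ℝ ∞ F :=
    contDiff_fst.prodMk (contDiff_snd.add ((hτ.comp contDiff_fst).smul (hc.comp contDiff_snd)))
  have hb : Bijective F := by
    constructor
    · rintro ⟨t, w⟩ ⟨t', w'⟩ h
      have h1 : t = t' := congrArg Prod.fst h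
      subst h1
      have h2 : w + τ t • c w = w' + τ t • c w' := congrArg Prod.snd h
      have := (hbt t).1 h2
      rw [this]
    · rintro ⟨t, y⟩
      obtain ⟨w, hw⟩ := (hbt t).2 y
      exact ⟨(t, w), Prod.ext rfl hw⟩
  have hi : ∀ z v, fderiv ℝ F z v = 0 → v = 0 := by
    rintro ⟨t, w⟩ ⟨dt, dw⟩ h
    have hτd : HasFDerivAt (fun p : ℝ × V => τ p.1)
        ((fderiv ℝ τ t).comp (ContinuousLinearMap.fst ℝ ℝ V)) (t, w) :=
      HasFDerivAt.comp (t, w) ((hτ.differentiable (by simp)) t).hasFDerivAt hasFDerivAt_fst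
    have hcd : HasFDerivAt (fun p : ℝ × V => c p.2)
        ((fderiv ℝ c w).comp (ContinuousLinearMap.snd ℝ ℝ V)) (t, w) :=
      HasFDerivAt.comp (t, w) ((hc.differentiable (by simp)) w).hasFDerivAt hasFDerivAt_snd
    have hd : HasFDerivAt F _ (t, w) :=
      (hasFDerivAt_fst (p := (t, w))).prodMk (hasFDerivAt_snd.add (hτd.smul hcd))
    rw [hd.fderiv] at h
    have h1 : dt = 0 := congrArg Prod.fst h
    subst h1
    have h2 := congrArg Prod.snd h
    simp at h2
    have h3 : ‖dw‖ ≤ k * ‖dw‖ := by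
      have h4 : dw = -(τ t • fderiv ℝ c w dw) := eq_neg_of_add_eq_zero_left h2
      calc ‖dw‖ = ‖τ t • fderiv ℝ c w dw‖ := by
            conv_lhs => rw [h4]
            rw [norm_neg]
        _ = ‖τ t‖ * ‖fderiv ℝ c w dw‖ := norm_smul _ _
        _ ≤ 1 * (‖fderiv ℝ c w‖ * ‖dw‖) := by
            gcongr
            · simpa using h0 t
            · exact ContinuousLinearMap.le_opNorm _ _
        _ ≤ k * ‖dw‖ := by
            rw [one_mul]
            gcongr
            exact hck w
    have h5 : (k : ℝ) < 1 := by exact_mod_cast hk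
    have h6 : ‖dw‖ = 0 := by nlinarith [norm_nonneg dw]
    have h7 : dw = 0 := norm_eq_zero.1 h6
    rw [h7]
    rfl
  obtain ⟨G, hG, hG1, hG2⟩ := exists_smooth_inv F hF hb hi
  have hfst : ∀ p, (G p).1 = p.1 := by
    intro p
    have := congrArg Prod.fst (hG2 p)
    exact this
  refine ⟨fun t w => (G (t, w)).2, ?_, ?_, ?_⟩
  · exact contDiff_snd.comp hG
  · intro t w
    have := congrArg Prod.snd (hG1 (t, w))
    exact this
  · intro t w
    have h1 := congrArg Prod.snd (hG2 (t, w))
    have h2 : (G (t, w)).2 + τ (G (t, w)).1 • c (G (t, w)).2 = w := h1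
    rw [hfst (t, w)] at h2
    exact h2

end Q170.SC
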