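import Pool.Agent.Q170.SC.Defs
import Pool.Agent.Q170.SC.Inv

/-!
# A symplectomorphism which is `C¹`-close to the identity is isotopic to the identity
-/

set_option autoImplicit false

open scoped ContDiff
open Set Topology Function

namespace Q170.SC

variable {n : ℕ}

theorem omega_add_smul_snd (u v : E n) (a b : Fin n → ℝ) (s : ℝ) :
    omega (u + s • ((0, a) : E n)) (v + s • ((0, b) : E n)) =
      omega u v + s * (∑ i, (u.1 i * b i - a i * v.1 i)) := by
  unfold omega
  rw [Finset.mul_sum, ← Finset.sum_add_distrib]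
  refine Finset.sum_congr rfl fun i _ => ?_
  simp only [Prod.fst_add, Prod.snd_add, Prod.smul_fst, Prod.smul_snd, Pi.add_apply,
    Pi.smul_apply, smul_eq_mul, Pi.zero_apply]
  ring

theorem omega_add_smul_fst (u v : E n) (a b : Fin n → ℝ) (s : ℝ) :
    omega (u + s • ((a, 0) : E n)) (v + s • ((b, 0) : E n)) =
      omega u v + s * (∑ i, (a i * v.2 i - u.2 i * b i)) := by
  unfold omega
  rw [Finset.mul_sum, ← Finset.sum_add_distrib]
  refine Finset.sum_congr rfl fun i _ => ?_
  simp only [Prod.fst_add, Prod.snd_add, Prod.smul_fst, Prod.smul_snd, Pi.add_apply,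
    Pi.smul_apply, smul_eq_mul, Pi.zero_apply]
  ring

/-- The algebraic heart of the isotopy. -/
theorem omega_interp (u v : E n) (a b a' b' : Fin n → ℝ) (s : ℝ)
    (h : omega (u + ((a', 0) : E n)) (v + ((b', 0) : E n)) =
      omega (u + ((0, a) : E n)) (v + ((0, b) : E n))) :
    omega (u + s • ((a', 0) : E n)) (v + s • ((b', 0) : E n)) =
      omega (u + s • ((0, a) : E n)) (v + s • ((0, b) : E n)) := by
  have h1 := omega_add_smul_snd u v a b 1
  have h2 := omega_add_smul_fst u v a' b' 1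
  rw [one_smul, one_smul, one_mul] at h1 h2
  rw [h1, h2] at h
  have h3 := add_left_cancel h
  rw [omega_add_smul_snd, omega_add_smul_fst, h3]

theorem norm_snd_part (u : E n) : ‖((0, u.2) : E n)‖ ≤ ‖u‖ := by
  rw [Prod.norm_def, Prod.norm_def]
  simp only [norm_zero]
  exact max_le (norm_nonneg _ |>.trans (le_max_left _ _)) (le_max_right _ _)

/-- Main isotopy lemma: a symplectomorphism whose derivative is everywhere `1/4`-close to the
identity is isotopic to the identity through symplectomorphisms which are the identity wherever the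
given one is. -/
theorem exists_isotopy (K : Set (E n)) (φ : Equiv.Perm (E n)) (hφ : IsSymp φ) (hK : SuppIn K φ)
    (hd : ∀ z u, ‖fderiv ℝ φ z u - u‖ ≤ 1 / 4 * ‖u‖) :
    ∃ Φ : ℝ → Equiv.Perm (E n), ContDiff ℝ ∞ (fun p : ℝ × E n => Φ p.1 p.2) ∧
      (∀ t, IsSymp (Φ t)) ∧ (∀ t, SuppIn K (Φ t)) ∧ Φ 0 = 1 ∧ Φ 1 = φ := by
  -- the diffeomorphism `P`
  let cP : E n → E n := fun z => (0, (φ z).2 - z.2)
  have hcP : ContDiff ℝ ∞ cP :=
    contDiff_const.prodMk ((contDiff_snd.comp hφ.smooth).sub contDiff_snd)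
  have hφd : ∀ z, HasFDerivAt φ (fderiv ℝ φ z) z := fun z =>
    ((hφ.smooth.differentiable (by simp)) z).hasFDerivAt
  have hcPd : ∀ z u, fderiv ℝ cP z u = (0, (fderiv ℝ φ z u - u).2) := by
    intro z u
    have h1 : HasFDerivAt (fun z => (φ z).2)
        ((ContinuousLinearMap.snd ℝ (Fin n → ℝ) (Fin n → ℝ)).comp (fderiv ℝ φ z)) z :=
      HasFDerivAt.comp z hasFDerivAt_snd (hφd z)
    have h2 := (hasFDerivAt_const (0 : Fin n → ℝ) z).prodMk (h1.sub hasFDerivAt_snd)
    have h3 : HasFDerivAt cP _ z := h2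
    rw [h3.fderiv]
    rfl
  have hcPn : ∀ z u, ‖fderiv ℝ cP z u‖ ≤ 1 / 4 * ‖u‖ := by
    intro z u
    rw [hcPd]
    exact (norm_snd_part _).trans (hd z u)
  obtain ⟨R, hR, hR1, hR2⟩ := exists_smooth_family_inv cP hcP (1 / 4)
    (by rw [← NNReal.coe_lt_coe]; norm_num)
    (fun z => ContinuousLinearMap.opNorm_le_bound _ (by positivity) (fun u => by
      have := hcPn z u
      simpa using this)) (fun _ => 1) contDiff_const (fun _ => by simp)
  let Q : E n → E n := R 0
  have hQ : ContDiff ℝ ∞ Q := hR.comp (contDiff_const.prodMk contDiff_id)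
  have hQ2 : ∀ w, Q w + cP (Q w) = w := by
    intro w
    have := hR2 0 w
    rw [one_smul] at this
    exact this
  have hQ1 : ∀ w, Q (w + cP w) = w := by
    intro w
    have := hR1 0 w
    rw [one_smul] at this
    exact this
  have hQd : ∀ w, HasFDerivAt Q (fderiv ℝ Q w) w := fun w =>
    ((hQ.differentiable (by simp)) w).hasFDerivAt
  -- derivative of `Q`
  have hQd2 : ∀ w v, fderiv ℝ Q w v + fderiv ℝ cP (Q w) (fderiv ℝ Q w v) = v := by
    intro w v
    have h1 : HasFDerivAt (fun w => Q w + cP (Q w))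
        (fderiv ℝ Q w + (fderiv ℝ cP (Q w)).comp (fderiv ℝ Q w)) w :=
      (hQd w).add (HasFDerivAt.comp w
        ((hcP.differentiable (by simp)) (Q w)).hasFDerivAt (hQd w))
    have h2 : (fun w => Q w + cP (Q w)) = fun w => w := funext hQ2
    rw [h2] at h1
    have h3 := h1.unique (hasFDerivAt_id w)
    exact DFunLike.congr_fun h3 v
  have hQn : ∀ w v, ‖fderiv ℝ Q w v‖ ≤ 4 / 3 * ‖v‖ := by
    intro w v
    have h1 := hcPn (Q w) (fderiv ℝ Q w v)
    have h2 : fderiv ℝ Q w v = v - fderiv ℝ cP (Q w) (fderiv ℝ Q w v) :=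
      eq_sub_of_add_eq (hQd2 w v)
    have h3 : ‖fderiv ℝ Q w v‖ ≤ ‖v‖ + ‖fderiv ℝ cP (Q w) (fderiv ℝ Q w v)‖ := by
      conv_lhs => rw [h2]
      exact norm_sub_le _ _
    linarith
  have hQf : ∀ w, (Q w).1 = w.1 := by
    intro w
    have := congrArg Prod.fst (hQ2 w)
    simpa [cP] using this
  have hφQ : ∀ w, (φ (Q w)).2 = w.2 := by
    intro w
    have := congrArg Prod.snd (hQ2 w)
    simpa [cP] using this
  -- the two displacement maps
  let cA : E n → E n := fun w => Q w - w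
  let cB : E n → E n := fun w => φ (Q w) - w
  have hcA : ContDiff ℝ ∞ cA := hQ.sub contDiff_id
  have hcB : ContDiff ℝ ∞ cB := (hφ.smooth.comp hQ).sub contDiff_id
  have hcAd : ∀ w v, fderiv ℝ cA w v = fderiv ℝ Q w v - v := by
    intro w v
    have h1 : HasFDerivAt cA _ w := (hQd w).sub (hasFDerivAt_id w)
    rw [h1.fderiv]
    rfl
  have hcBd : ∀ w v, fderiv ℝ cB w v = fderiv ℝ φ (Q w) (fderiv ℝ Q w v) - v := by
    intro w v
    have h1 : HasFDerivAt cB _ w :=
      (HasFDerivAt.comp w (hφd (Q w)) (hQd w)).sub (hasFDerivAt_id w)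
    rw [h1.fderiv]
    rfl
  have hcAn : ∀ w v, ‖fderiv ℝ cA w v‖ ≤ 1 / 3 * ‖v‖ := by
    intro w v
    have h1 : fderiv ℝ cA w v = -(fderiv ℝ cP (Q w) (fderiv ℝ Q w v)) := by
      rw [hcAd, sub_eq_iff_eq_add, ← sub_eq_neg_add]
      exact eq_sub_of_add_eq (hQd2 w v)
    rw [h1, norm_neg]
    have h2 := hcPn (Q w) (fderiv ℝ Q w v)
    have h3 := hQn w v
    linarith
  have hcBn : ∀ w v, ‖fderiv ℝ cB w v‖ ≤ 2 / 3 * ‖v‖ := by
    intro w v
    have h1 : fderiv ℝ cB w v = (fderiv ℝ φ (Q w) (fderiv ℝ Q w v) - fderiv ℝ Q w v) +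
        fderiv ℝ cA w v := by
      rw [hcBd, hcAd]
      abel
    rw [h1]
    have h2 := hd (Q w) (fderiv ℝ Q w v)
    have h3 := hQn w v
    have h4 := hcAn w v
    have h5 := norm_add_le (fderiv ℝ φ (Q w) (fderiv ℝ Q w v) - fderiv ℝ Q w v)
      (fderiv ℝ cA w v)
    linarith
  have hcA1 : ∀ w v, fderiv ℝ cA w v = (0, (fderiv ℝ cA w v).2) := by
    intro w v
    refine Prod.ext ?_ rfl
    have h1 : HasFDerivAt (fun w => (cA w).1)
        ((ContinuousLinearMap.fst ℝ (Fin n → ℝ) (Fin n → ℝ)).comp (fderiv ℝ cA w)) w :=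
      HasFDerivAt.comp w hasFDerivAt_fst ((hcA.differentiable (by simp)) w).hasFDerivAt
    have h2 : (fun w => (cA w).1) = fun _ => 0 := by
      funext w
      show (Q w).1 - w.1 = 0
      rw [hQf, sub_self]
    rw [h2] at h1
    exact DFunLike.congr_fun (h1.unique (hasFDerivAt_const (0 : Fin n → ℝ) w)) v
  have hcB1 : ∀ w v, fderiv ℝ cB w v = ((fderiv ℝ cB w v).1, 0) := by
    intro w v
    refine Prod.ext rfl ?_
    have h1 : HasFDerivAt (fun w => (cB w).2)
        ((ContinuousLinearMap.snd ℝ (Fin n → ℝ) (Fin n → ℝ)).comp (fderiv ℝ cB w)) w :=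
      HasFDerivAt.comp w hasFDerivAt_snd ((hcB.differentiable (by simp)) w).hasFDerivAt
    have h2 : (fun w => (cB w).2) = fun _ => 0 := by
      funext w
      show (φ (Q w)).2 - w.2 = 0
      rw [hφQ, sub_self]
    rw [h2] at h1
    exact DFunLike.congr_fun (h1.unique (hasFDerivAt_const (0 : Fin n → ℝ) w)) v
  have hQK : ∀ w, w ∉ K → Q w = w := by
    intro w hw
    have h1 : cP w = 0 := by
      show ((0 : Fin n → ℝ), (φ w).2 - w.2) = 0
      rw [hK w hw, sub_self]
      rfl
    have h2 := hQ1 w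
    rw [h1, add_zero] at h2
    exact h2
  have hcAK : ∀ w, w ∉ K → cA w = 0 := by
    intro w hw
    show Q w - w = 0
    rw [hQK w hw, sub_self]
  have hcBK : ∀ w, w ∉ K → cB w = 0 := by
    intro w hw
    show φ (Q w) - w = 0
    rw [hQK w hw, hK w hw, sub_self]
  -- the time function
  let τ : ℝ → ℝ := Real.smoothTransition
  have hτ : ContDiff ℝ ∞ τ := Real.smoothTransition.contDiff
  have hτ1 : ∀ t, |τ t| ≤ 1 := fun t =>
    abs_le.2 ⟨by linarith [Real.smoothTransition.nonneg t], Real.smoothTransition.le_one t⟩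
  obtain ⟨RA, hRA, hRA1, hRA2⟩ := exists_smooth_family_inv cA hcA (1 / 3)
    (by rw [← NNReal.coe_lt_coe]; norm_num)
    (fun z => ContinuousLinearMap.opNorm_le_bound _ (by positivity) (fun u => by
      have := hcAn z u
      simpa using this)) τ hτ hτ1
  obtain ⟨RB, hRB, hRB1, hRB2⟩ := exists_smooth_family_inv cB hcB (2 / 3)
    (by rw [← NNReal.coe_lt_coe]; norm_num)
    (fun z => ContinuousLinearMap.opNorm_le_bound _ (by positivity) (fun u => by
      have := hcBn z u
      simpa using this)) τ hτ hτ1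
  let Φ : ℝ → Equiv.Perm (E n) := fun t =>
    { toFun := fun z => RA t z + τ t • cB (RA t z)
      invFun := fun z => RB t z + τ t • cA (RB t z)
      left_inv := by
        intro z
        show RB t (RA t z + τ t • cB (RA t z)) + τ t • cA (RB t (RA t z + τ t • cB (RA t z))) = z
        rw [hRB1, hRA2]
      right_inv := by
        intro z
        show RA t (RB t z + τ t • cA (RB t z)) + τ t • cB (RA t (RB t z + τ t • cA (RB t z))) = z
        rw [hRA1, hRB2] }
  have hΦs : ContDiff ℝ ∞ (fun p : ℝ × E n => Φ p.1 p.2) :=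
    hRA.add ((hτ.comp contDiff_fst).smul (hcB.comp hRA))
  have hΦi : ContDiff ℝ ∞ (fun p : ℝ × E n => (Φ p.1).symm p.2) :=
    hRB.add ((hτ.comp contDiff_fst).smul (hcA.comp hRB))
  have hιs : ∀ t : ℝ, ContDiff ℝ ∞ (fun z : E n => (t, z)) := fun t =>
    contDiff_const.prodMk contDiff_id
  refine ⟨Φ, hΦs, ?_, ?_, ?_, ?_⟩
  · intro t
    have hst : ContDiff ℝ ∞ (Φ t) := hΦs.comp (hιs t)
    refine ⟨hst, hΦi.comp (hιs t), ?_⟩
    intro z u v
    -- write `z = A w`
    set w := RA t z with hw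
    have hAw : w + τ t • cA w = z := hRA2 t z
    let A : E n → E n := fun w => w + τ t • cA w
    let B : E n → E n := fun w => w + τ t • cB w
    have hA : ∀ w, HasFDerivAt A (ContinuousLinearMap.id ℝ (E n) + τ t • fderiv ℝ cA w) w :=
      fun w => (hasFDerivAt_id w).add
        (((hcA.differentiable (by simp)) w).hasFDerivAt.const_smul (τ t))
    have hB : ∀ w, HasFDerivAt B (ContinuousLinearMap.id ℝ (E n) + τ t • fderiv ℝ cB w) w :=
      fun w => (hasFDerivAt_id w).add
        (((hcB.differentiable (by simp)) w).hasFDerivAt.const_smul (τ t))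
    have hcomp : (fun w => Φ t (A w)) = B := by
      funext w
      show RA t (w + τ t • cA w) + τ t • cB (RA t (w + τ t • cA w)) = w + τ t • cB w
      rw [hRA1]
    have hΦd : ∀ z, HasFDerivAt (Φ t) (fderiv ℝ (Φ t) z) z := fun z =>
      ((hst.differentiable (by simp)) z).hasFDerivAt
    have hchain : ∀ w a, fderiv ℝ (Φ t) (A w) (a + τ t • fderiv ℝ cA w a) =
        a + τ t • fderiv ℝ cB w a := by
      intro w a
      have h1 := HasFDerivAt.comp w (hΦd (A w)) (hA w)
      have h2 : HasFDerivAt (fun w => Φ t (A w)) _ w := h1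
      rw [hcomp] at h2
      have h3 := h2.unique (hB w)
      exact DFunLike.congr_fun h3 a
    -- the derivative of `A` is onto
    have hAinv : ∀ a, ∃ b, b + τ t • fderiv ℝ cA w b = a := by
      intro a
      have hRAt : ContDiff ℝ ∞ (RA t) := hRA.comp (hιs t)
      have h1 : HasFDerivAt (RA t) (fderiv ℝ (RA t) z) z :=
        ((hRAt.differentiable (by simp)) z).hasFDerivAt
      have h2 : HasFDerivAt (fun z => A (RA t z)) _ z := HasFDerivAt.comp z (hA (RA t z)) h1
      have h3 : (fun z => A (RA t z)) = fun z => z := funext (hRA2 t)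
      rw [h3] at h2
      have h4 := h2.unique (hasFDerivAt_id z)
      exact ⟨fderiv ℝ (RA t) z a, DFunLike.congr_fun h4 a⟩
    obtain ⟨a, rfl⟩ := hAinv u
    obtain ⟨b, rfl⟩ := hAinv v
    have hz : z = A w := hAw.symm
    rw [hz, hchain, hchain, hcA1 w a, hcA1 w b, hcB1 w a, hcB1 w b]
    refine omega_interp a b _ _ _ _ (τ t) ?_
    have e1 : a + ((fderiv ℝ cB w a).1, (0 : Fin n → ℝ)) =
        fderiv ℝ φ (Q w) (fderiv ℝ Q w a) := by
      rw [← hcB1, hcBd]
      abel
    have e2 : b + ((fderiv ℝ cB w b).1, (0 : Fin n → ℝ)) =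
        fderiv ℝ φ (Q w) (fderiv ℝ Q w b) := by
      rw [← hcB1, hcBd]
      abel
    have e3 : a + ((0 : Fin n → ℝ), (fderiv ℝ cA w a).2) = fderiv ℝ Q w a := by
      rw [← hcA1, hcAd]
      abel
    have e4 : b + ((0 : Fin n → ℝ), (fderiv ℝ cA w b).2) = fderiv ℝ Q w b := by
      rw [← hcA1, hcAd]
      abel
    rw [e1, e2, e3, e4]
    exact hφ.form _ _ _
  · intro t z hz
    have h1 : RA t z = z := by
      have h2 := hRA1 t z
      rw [hcAK z hz, smul_zero, add_zero] at h2
      exact h2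
    show RA t z + τ t • cB (RA t z) = z
    rw [h1, hcBK z hz, smul_zero, add_zero]
  · ext1 z
    have h0 : τ 0 = 0 := Real.smoothTransition.zero
    show RA 0 z + τ 0 • cB (RA 0 z) = z
    have h1 := hRA2 0 z
    rw [h0, zero_smul, add_zero] at h1 ⊢
    exact h1
  · ext1 z
    have h0 : τ 1 = 1 := Real.smoothTransition.one
    show RA 1 z + τ 1 • cB (RA 1 z) = φ z
    have h1 := hRA2 1 z
    rw [h0, one_smul] at h1 ⊢
    have h2 : Q (RA 1 z) = z := by
      have h3 : RA 1 z + (Q (RA 1 z) - RA 1 z) = z := h1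
      rw [add_sub_cancel] at h3
      exact h3
    show RA 1 z + (φ (Q (RA 1 z)) - RA 1 z) = φ z
    rw [h2, add_sub_cancel]

end Q170.SC
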